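import Pool.Agent.N92.PO.Mert

/-! # Finitely many bad primes -/

set_option autoImplicit false
set_option linter.unusedSectionVars false

namespace Pool.Agent.N92.PO

open Finset Filter Polynomial
open Pool.Agent.H474R2.PG (rho Sg PR mertens_lower rho_le)
open Pool.Agent.H474R2.GE (mertens_rho)
open scoped NumberTheorySymbols

theorem jac_cases (q r : ℕ) : (J((r : ℤ) | q) : ℝ) = 0 ∨ (J((r : ℤ) | q) : ℝ) = 1 ∨
    (J((r : ℤ) | q) : ℝ) = -1 := by
  rcases jacobiSym.trichotomy (r : ℤ) q with h | h | h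
  · left; rw [h]; norm_num
  · right; left; rw [h]; norm_num
  · right; right; rw [h]; norm_num

/-- For all but finitely many primes `q`, the sum of `ρ(r) / r` over the primes `r` which are not squares
modulo `q` diverges. -/
theorem finite_bad (g : ℤ[X]) (hg : Irreducible g) (hd : 0 < g.natDegree) :
    {q : ℕ | q.Prime ∧ q ≠ 2 ∧ Summable (fun n : ℕ =>
      {r : ℕ | r.Prime ∧ J((r : ℤ) | q) = -1}.indicator (fun p => (rho g p : ℝ) / p) n)}.Finite := by
  classical
  by_contra hinf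
  obtain ⟨F, hF, hcard⟩ := Set.Infinite.exists_subset_card_eq hinf (g.natDegree + 1)
  set d : ℝ := (g.natDegree : ℝ) with hdd
  have hd0 : 0 ≤ d := by positivity
  set k : ℝ := d + 1 with hk
  have hkF : (F.card : ℝ) = k := by rw [hcard, hk, hdd]; push_cast; ring
  set a : ℕ → ℝ := fun p => (rho g p : ℝ) / p with ha
  have ha0 : ∀ n, 0 ≤ a n := fun n => by rw [ha]; positivity
  have ha1 : ∀ n, a n ≤ 1 := by
    intro n
    rw [ha]
    rcases Nat.eq_zero_or_pos n with h | h
    · subst h; simp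
    · change (rho g n : ℝ) / n ≤ 1
      rw [div_le_one (by exact_mod_cast h)]
      exact_mod_cast Pool.Agent.H474R2.PG.rho_le_self g n
  obtain ⟨C₁, hC₁, h1⟩ := mertens_rho g hg hd
  obtain ⟨C₂, hC₂, h2⟩ := mert_one
  obtain ⟨B, hB⟩ := rho_le g hg.ne_zero
  set T : ℕ → ℝ := fun q => ∑' n : ℕ, {r : ℕ | r.Prime ∧ J((r : ℤ) | q) = -1}.indicator a n with hT
  have hT0 : ∀ q, 0 ≤ T q := fun q =>
    tsum_nonneg fun n => Set.indicator_nonneg (fun _ _ => ha0 _) _
  have hpair : ∀ q q' : ℕ, ∃ c : ℝ, 0 ≤ c ∧ (q ∈ F → q' ∈ F → q ≠ q' → ∀ w : ℝ, 3 ≤ w →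
      |∑ p ∈ (PR w).filter (fun p => p ≠ 2), (J((ZMod.χ₄ (q : ZMod 4) * q : ℤ) *
        (ZMod.χ₄ (q' : ZMod 4) * q' : ℤ) | p) : ℝ) / p| ≤ c) := by
    intro q q'
    by_cases h : q ∈ F ∧ q' ∈ F ∧ q ≠ q'
    · obtain ⟨c, hc, hc2⟩ := mert_char (nonsq (hF h.1).1 (hF h.2.1).1 (hF h.1).2.1 (hF h.2.1).2.1
        h.2.2)
      exact ⟨c, hc, fun _ _ _ => hc2⟩
    · exact ⟨0, le_rfl, fun h1 h2 h3 => absurd ⟨h1, h2, h3⟩ h⟩
  choose Cp hCp0 hCp using hpair
  set A : ℝ := k * (C₁ + 1) + ∑ q ∈ F, (2 * T q + 1) with hA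
  set Bc : ℝ := d * C₁ + ∑ r ∈ Finset.range (B + 1), (r : ℝ) with hBc
  set Cc : ℝ := k * C₂ + ∑ q ∈ F, ∑ q' ∈ F, Cp q q' with hCc
  have hk1 : 1 ≤ k := by rw [hk]; linarith
  have hA0 : 0 ≤ A := by
    have : 0 ≤ ∑ q ∈ F, (2 * T q + 1) := Finset.sum_nonneg fun q _ => by
      have := hT0 q
      positivity
    positivity
  have hBc0 : 0 ≤ Bc := by positivity
  have hCc0 : 0 ≤ Cc := by
    have : 0 ≤ ∑ q ∈ F, ∑ q' ∈ F, Cp q q' :=
      Finset.sum_nonneg fun q _ => Finset.sum_nonneg fun q' _ => hCp0 q q'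
    positivity
  -- the choice of `w`
  have ht : Tendsto (fun w : ℝ => Real.log (Real.log w)) atTop atTop :=
    Real.tendsto_log_atTop.comp Real.tendsto_log_atTop
  obtain ⟨w, hw1, hw2⟩ := ((ht.eventually_gt_atTop
    (2 * k * A + d * Cc + k * Bc + Bc * Cc + A + 1)).and (eventually_ge_atTop 3)).exists
  set L : ℝ := Real.log (Real.log w) with hL
  set W : Finset ℕ := (PR w).filter (fun p => p ≠ 2) with hW
  have hWp : ∀ r ∈ W, r.Prime ∧ Odd r ∧ r ∈ PR w := by
    intro r hr
    rw [hW, Finset.mem_filter] at hr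
    have h3 := (mem_PR.1 hr.1).1
    exact ⟨h3, h3.odd_of_ne_two hr.2, hr.1⟩
  set Y : ℕ → ℝ := fun r => ∑ q ∈ F, (J((r : ℤ) | q) : ℝ) with hY
  have e1 := abs_le.1 (h1 w hw2)
  have e2 := abs_le.1 (h2 w hw2)
  rw [← hL] at e1 e2
  -- sums over W and over all primes
  have hWa : Sg (rho g) w - 1 ≤ ∑ r ∈ W, a r := by
    have h3 : Sg (rho g) w = ∑ r ∈ W, a r + ∑ r ∈ (PR w).filter (fun p => ¬ p ≠ 2), a r := by
      unfold Sg
      rw [hW, Finset.sum_filter_add_sum_filter_not]
    have h4 : ∑ r ∈ (PR w).filter (fun p => ¬ p ≠ 2), a r ≤ 1 := by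
      have hsub : (PR w).filter (fun p => ¬ p ≠ 2) ⊆ {2} := by
        intro p hp
        rw [Finset.mem_filter, not_not] at hp
        rw [Finset.mem_singleton]
        exact hp.2
      refine (Finset.sum_le_sum_of_subset_of_nonneg hsub fun p _ _ => ha0 p).trans ?_
      rw [Finset.sum_singleton]
      exact ha1 2
    linarith
  have hWa2 : ∑ r ∈ W, a r ≤ Sg (rho g) w := by
    unfold Sg
    exact Finset.sum_le_sum_of_subset_of_nonneg (Finset.filter_subset _ _) fun p _ _ => ha0 p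
  have hW1 : ∑ r ∈ W, (1 : ℝ) / r ≤ L + C₂ := by
    have : ∑ r ∈ W, (1 : ℝ) / r ≤ ∑ r ∈ PR w, (1 : ℝ) / r :=
      Finset.sum_le_sum_of_subset_of_nonneg (Finset.filter_subset _ _) fun p _ _ => by positivity
    linarith [e2.2]
  -- first claim
  have c1 : k * L - A ≤ ∑ r ∈ W, a r * Y r := by
    have h3 : ∑ r ∈ W, a r * Y r = ∑ q ∈ F, ∑ r ∈ W, a r * (J((r : ℤ) | q) : ℝ) := by
      rw [Finset.sum_comm]
      exact Finset.sum_congr rfl fun r _ => by rw [hY, Finset.mul_sum]
    have h4 : ∀ q ∈ F, L - C₁ - 1 - (2 * T q + 1) ≤ ∑ r ∈ W, a r * (J((r : ℤ) | q) : ℝ) := by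
      intro q hq
      obtain ⟨hqp, hq2, hqs⟩ := hF hq
      have h5 : ∑ r ∈ W, a r * (1 - (J((r : ℤ) | q) : ℝ)) ≤ 2 * T q + 1 := by
        have h6 : ∀ r ∈ W, a r * (1 - (J((r : ℤ) | q) : ℝ)) ≤
            2 * (if J((r : ℤ) | q) = -1 then a r else 0) + (if r = q then 1 else 0) := by
          intro r hr
          have hrp := (hWp r hr).1
          rcases jac_cases q r with h | h | h
          · have h7 : J((r : ℤ) | q) = 0 := by exact_mod_cast h
            have h8 : r = q := by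
              rw [jacobiSym.eq_zero_iff] at h7
              have h9 : ¬ Nat.Coprime r q := by
                intro hc
                exact h7.2 (by rw [Int.gcd_natCast_natCast]; exact hc)
              exact (Nat.coprime_primes hrp hqp).not_left.1 h9
            rw [h, h7, if_neg (by norm_num), if_pos h8, mul_zero, zero_add, sub_zero, mul_one]
            exact ha1 r
          · have h7 : J((r : ℤ) | q) = 1 := by exact_mod_cast h
            rw [h, h7, if_neg (by norm_num), sub_self, mul_zero, mul_zero, zero_add]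
            split_ifs <;> norm_num
          · have h7 : J((r : ℤ) | q) = -1 := by exact_mod_cast h
            rw [h, h7, if_pos rfl]
            have : (0 : ℝ) ≤ if r = q then 1 else 0 := by split_ifs <;> norm_num
            linarith
        refine (Finset.sum_le_sum h6).trans ?_
        rw [Finset.sum_add_distrib, ← Finset.mul_sum, ← Finset.sum_filter, Finset.sum_ite_eq']
        have h7 : ∑ r ∈ W.filter (fun r : ℕ => J((r : ℤ) | q) = -1), a r ≤ T q :=
          part_le ha0 hqs _ fun n hn => by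
            rw [Finset.mem_filter] at hn
            exact ⟨(hWp n hn.1).1, hn.2⟩
        have h8 : (if q ∈ W then (1 : ℝ) else 0) ≤ 1 := by split_ifs <;> norm_num
        linarith
      have h9 : ∑ r ∈ W, a r * (1 - (J((r : ℤ) | q) : ℝ)) =
          ∑ r ∈ W, a r - ∑ r ∈ W, a r * (J((r : ℤ) | q) : ℝ) := by
        rw [← Finset.sum_sub_distrib]
        exact Finset.sum_congr rfl fun r _ => by ring
      linarith [e1.1]
    rw [h3]
    refine le_trans (le_of_eq ?_) (Finset.sum_le_sum h4)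
    rw [Finset.sum_sub_distrib, Finset.sum_const, nsmul_eq_mul, hkF, hA]
    ring
  -- second claim
  have c2 : ∑ r ∈ W, (a r) ^ 2 * r ≤ d * L + Bc := by
    have h3 : ∀ r ∈ W, (a r) ^ 2 * r ≤ d * a r + (if r ∈ Finset.range (B + 1) then (r : ℝ) else 0) := by
      intro r hr
      have hrp := (hWp r hr).1
      have hr0 : (0 : ℝ) < r := by exact_mod_cast hrp.pos
      by_cases hrB : r ∈ Finset.range (B + 1)
      · rw [if_pos hrB]
        have h4 : (a r) ^ 2 ≤ 1 := by
          have := ha1 r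
          have := ha0 r
          nlinarith
        have h5 := mul_nonneg hd0 (ha0 r)
        nlinarith
      · rw [if_neg hrB, add_zero]
        rw [Finset.mem_range] at hrB
        have h4 := hB r hrp (by omega)
        have h5 : a r * r = rho g r := by
          rw [ha]
          field_simp
        have h6 : a r * r ≤ d := by
          rw [h5, hdd]
          exact_mod_cast h4
        have h7 := mul_le_mul_of_nonneg_left h6 (ha0 r)
        nlinarith
    refine (Finset.sum_le_sum h3).trans ?_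
    rw [Finset.sum_add_distrib, ← Finset.mul_sum, ← Finset.sum_filter]
    have h4 : ∑ r ∈ W.filter (fun r => r ∈ Finset.range (B + 1)), (r : ℝ) ≤
        ∑ r ∈ Finset.range (B + 1), (r : ℝ) :=
      Finset.sum_le_sum_of_subset_of_nonneg (fun r hr => (Finset.mem_filter.1 hr).2)
        fun _ _ _ => by positivity
    have h5 : d * ∑ r ∈ W, a r ≤ d * (L + C₁) :=
      mul_le_mul_of_nonneg_left (by linarith [e1.2]) hd0
    rw [hBc]
    linarith
  -- third claim
  have c3 : ∑ r ∈ W, (Y r) ^ 2 / r ≤ k * L + Cc := by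
    have h3 : ∑ r ∈ W, (Y r) ^ 2 / r =
        ∑ q ∈ F, ∑ q' ∈ F, ∑ r ∈ W, ((J((r : ℤ) | q) : ℝ) * (J((r : ℤ) | q') : ℝ)) / r := by
      have h4 : ∀ r ∈ W, (Y r) ^ 2 / r =
          ∑ q ∈ F, ∑ q' ∈ F, ((J((r : ℤ) | q) : ℝ) * (J((r : ℤ) | q') : ℝ)) / r := by
        intro r _
        rw [pow_two, hY, Finset.sum_mul_sum, Finset.sum_div]
        exact Finset.sum_congr rfl fun q _ => by rw [Finset.sum_div]
      rw [Finset.sum_congr rfl h4, Finset.sum_comm]
      refine Finset.sum_congr rfl fun q _ => ?_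
      rw [Finset.sum_comm]
    have h5 : ∀ q ∈ F, ∀ q' ∈ F, ∑ r ∈ W, ((J((r : ℤ) | q) : ℝ) * (J((r : ℤ) | q') : ℝ)) / r ≤
        (if q = q' then L + C₂ else 0) + Cp q q' := by
      intro q hq q' hq'
      by_cases hqq : q = q'
      · subst hqq
        rw [if_pos rfl]
        have h6 : ∑ r ∈ W, ((J((r : ℤ) | q) : ℝ) * (J((r : ℤ) | q) : ℝ)) / r ≤
            ∑ r ∈ W, (1 : ℝ) / r := by
          refine Finset.sum_le_sum fun r hr => ?_
          have hr0 : (0 : ℝ) < r := by exact_mod_cast (hWp r hr).1.pos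
          apply div_le_div_of_nonneg_right _ hr0.le
          rcases jac_cases q r with h | h | h <;> rw [h] <;> norm_num
        have := hCp0 q q
        linarith
      · rw [if_neg hqq, zero_add]
        refine le_trans (le_of_eq ?_) ((le_abs_self _).trans (hCp q q' hq hq' hqq w hw2))
        refine Finset.sum_congr rfl fun r hr => ?_
        have hqo := (hF hq).1.odd_of_ne_two (hF hq).2.1
        have hqo' := (hF hq').1.odd_of_ne_two (hF hq').2.1
        rw [jacobiSym.mul_left, ← recip hqo (hWp r hr).2.1, ← recip hqo' (hWp r hr).2.1]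
        push_cast
        rfl
    rw [h3]
    refine (Finset.sum_le_sum fun q hq => Finset.sum_le_sum (h5 q hq)).trans (le_of_eq ?_)
    have h6 : ∀ q ∈ F, ∑ q' ∈ F, ((if q = q' then L + C₂ else 0) + Cp q q') =
        (L + C₂) + ∑ q' ∈ F, Cp q q' := by
      intro q hq
      rw [Finset.sum_add_distrib, Finset.sum_ite_eq, if_pos hq]
    rw [Finset.sum_congr rfl h6, Finset.sum_add_distrib, Finset.sum_const, nsmul_eq_mul, hkF, hCc]
    ring
  -- Cauchy-Schwarz
  have c4 : (∑ r ∈ W, a r * Y r) ^ 2 ≤ (∑ r ∈ W, (a r) ^ 2 * r) * ∑ r ∈ W, (Y r) ^ 2 / r := by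
    have h3 := Finset.sum_mul_sq_le_sq_mul_sq W (fun r => a r * Real.sqrt r)
      (fun r => Y r / Real.sqrt r)
    have h4 : ∑ r ∈ W, a r * Real.sqrt r * (Y r / Real.sqrt r) = ∑ r ∈ W, a r * Y r := by
      refine Finset.sum_congr rfl fun r hr => ?_
      have hr0 : (0 : ℝ) < Real.sqrt r := Real.sqrt_pos.2 (by exact_mod_cast (hWp r hr).1.pos)
      field_simp
    have h5 : ∑ r ∈ W, (a r * Real.sqrt r) ^ 2 = ∑ r ∈ W, (a r) ^ 2 * r := by
      refine Finset.sum_congr rfl fun r hr => ?_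
      rw [mul_pow, Real.sq_sqrt (by positivity)]
    have h6 : ∑ r ∈ W, (Y r / Real.sqrt r) ^ 2 = ∑ r ∈ W, (Y r) ^ 2 / r := by
      refine Finset.sum_congr rfl fun r hr => ?_
      rw [div_pow, Real.sq_sqrt (by positivity)]
    rw [h4, h5, h6] at h3
    exact h3
  have hL0 : 0 ≤ L := by
    have : 0 ≤ 2 * k * A + d * Cc + k * Bc + Bc * Cc + A + 1 := by positivity
    linarith
  have hk0 : 0 ≤ k := by linarith
  have c5 : 0 ≤ k * L - A := by
    have g1 := mul_nonneg hd0 hCc0
    have g2 := mul_nonneg hBc0 hCc0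
    have g3 := mul_nonneg hk0 hA0
    have g4 := mul_nonneg hk0 hBc0
    nlinarith
  have c6 : (k * L - A) ^ 2 ≤ (d * L + Bc) * (k * L + Cc) := by
    have h3 : (k * L - A) ^ 2 ≤ (∑ r ∈ W, a r * Y r) ^ 2 := pow_le_pow_left₀ c5 c1 2
    refine (h3.trans c4).trans ?_
    refine mul_le_mul c2 c3 (Finset.sum_nonneg fun r _ => by positivity) (by positivity)
  have c7 : k * L ^ 2 ≤ (2 * k * A + d * Cc + k * Bc) * L + Bc * Cc := by
    have : d = k - 1 := by rw [hk]; ring
    rw [this] at c6 ⊢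
    nlinarith [sq_nonneg A]
  have c8 : 1 ≤ L := by
    have : 0 ≤ 2 * k * A + d * Cc + k * Bc + Bc * Cc + A := by positivity
    linarith
  have c9 : L ^ 2 ≤ k * L ^ 2 := by nlinarith [sq_nonneg L]
  have c10 : (2 * k * A + d * Cc + k * Bc + Bc * Cc + A + 1) * L < L * L :=
    mul_lt_mul_of_pos_right hw1 (by linarith)
  have c11 : Bc * Cc ≤ Bc * Cc * L := le_mul_of_one_le_right (by positivity) c8
  nlinarith [mul_nonneg hA0 hL0]

end Pool.Agent.N92.PO
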