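import Pool.Agent.N92.PO.Bad

/-! # Local counts and factors -/

set_option autoImplicit false
set_option linter.unusedSectionVars false

namespace Pool.Agent.N92.PO

open Finset Filter Polynomial
open Pool.Agent.H474R2.PG (rho Sg PR mertens_lower rho_le)

/-- denominators -/
theorem clear (q : ℚ[X]) : ∃ N : ℤ, N ≠ 0 ∧ ∃ p : ℤ[X],
    p.map (Int.castRingHom ℚ) = C (N : ℚ) * q := by
  obtain ⟨b, hb⟩ := IsLocalization.integerNormalization_map_to_map (nonZeroDivisors ℤ) q
  refine ⟨b, nonZeroDivisors.coe_ne_zero b,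
    IsLocalization.integerNormalization (nonZeroDivisors ℤ) q, ?_⟩
  have h : (Int.castRingHom ℚ) = algebraMap ℤ ℚ := rfl
  rw [h, hb]
  ext n
  simp [Algebra.smul_def]

/-- a common divisor of the values divides a constant -/
theorem bez {g h : ℤ[X]} (hg : Irreducible g) (hd : 0 < g.natDegree) (hgh : ¬ g ∣ h) :
    ∃ D : ℤ, D ≠ 0 ∧ ∀ (p t : ℤ), p ∣ g.eval t → p ∣ h.eval t → p ∣ D := by
  have hprim : g.IsPrimitive := hg.isPrimitive hd.ne'
  have hirr : Irreducible (g.map (Int.castRingHom ℚ)) :=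
    (IsPrimitive.Int.irreducible_iff_irreducible_map_cast hprim).1 hg
  have hnd : ¬ g.map (Int.castRingHom ℚ) ∣ h.map (Int.castRingHom ℚ) := by
    intro hdiv
    exact hgh ((IsPrimitive.Int.dvd_iff_map_cast_dvd_map_cast g h hprim).2 hdiv)
  obtain ⟨a, b, hab⟩ := (EuclideanDomain.isCoprime_of_dvd (x := g.map (Int.castRingHom ℚ))
    (y := h.map (Int.castRingHom ℚ)) (fun h => hirr.ne_zero h.1) (by
      intro z hz hz0 hzg hzh
      rcases hirr.dvd_iff.1 hzg with h1 | h1
      · exact hz h1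
      · exact hnd (h1.dvd.trans hzh)))
  obtain ⟨N₁, hN₁, a', ha'⟩ := clear a
  obtain ⟨N₂, hN₂, b', hb'⟩ := clear b
  have key : C N₂ * a' * g + C N₁ * b' * h = C (N₁ * N₂) := by
    apply Polynomial.map_injective (Int.castRingHom ℚ) Int.cast_injective
    rw [Polynomial.map_add, Polynomial.map_mul, Polynomial.map_mul, Polynomial.map_mul,
      Polynomial.map_mul, ha', hb', map_C, map_C, map_C]
    simp only [eq_intCast, Int.cast_mul, C_mul]
    linear_combination (C (N₁ : ℚ) * C (N₂ : ℚ)) * hab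
  refine ⟨N₁ * N₂, mul_ne_zero hN₁ hN₂, fun p t h1 h2 => ?_⟩
  have h3 := congrArg (fun P : ℤ[X] => P.eval t) key
  simp only [eval_add, eval_mul, eval_C] at h3
  rw [← h3]
  exact dvd_add (h1.mul_left _) (h2.mul_left _)

theorem not_dvd_der {g : ℤ[X]} (hd : 0 < g.natDegree) : ¬ g ∣ derivative g := by
  intro h
  have h0 : derivative g ≠ 0 := by
    intro h0
    have := derivative_eq_zero.1 h0
    omega
  have h1 := natDegree_le_of_dvd h h0
  have h2 := natDegree_derivative_lt hd.ne'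
  omega

/-- an irreducible factor of positive degree -/
theorem exists_factor {F : ℤ[X]} (hF : 0 < F.natDegree) :
    ∃ u : ℤ[X], Irreducible u ∧ 0 < u.natDegree ∧ u ∣ F := by
  have h0 : F ≠ 0 := by
    rintro rfl
    simp at hF
  obtain ⟨s, hs, hsF⟩ := UniqueFactorizationMonoid.exists_prime_factors F h0
  by_contra hcon
  push Not at hcon
  have h1 : ∀ u ∈ s, u.natDegree = 0 := by
    intro u hu
    by_contra h2
    exact hcon u (hs u hu).irreducible (Nat.pos_of_ne_zero h2)
      ((Multiset.dvd_prod hu).trans hsF.dvd)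
  have h2 : s.prod.natDegree = 0 := by
    rw [natDegree_multiset_prod _ (fun h => (hs 0 h).ne_zero rfl)]
    rw [Multiset.sum_eq_zero_iff]
    intro x hx
    obtain ⟨u, hu, rfl⟩ := Multiset.mem_map.1 hx
    exact h1 u hu
  have h3 := natDegree_eq_of_degree_eq (degree_eq_degree_of_associated hsF)
  omega

/-- the residue classes modulo `q ^ 2` with `q ∣ u` -/
theorem cnt_dvd (u : ℤ[X]) {q : ℕ} (hq : 0 < q) :
    (rho u q : ℝ) / q * (q : ℝ) ^ 2 ≤ ({a : ℕ | a < q ^ 2 ∧ (q : ℤ) ∣ u.eval (a : ℤ)}.ncard : ℝ) := by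
  classical
  have hq0 : (0 : ℝ) < q := by exact_mod_cast hq
  have h1 : {a : ℕ | a < q ^ 2 ∧ (q : ℤ) ∣ u.eval (a : ℤ)} =
      (((Finset.range (q ^ 2)).filter (fun a : ℕ => (q : ℤ) ∣ u.eval (a : ℤ)) : Finset ℕ) : Set ℕ) := by
    ext a
    simp
  rw [h1, Set.ncard_coe_finset]
  have h2 : rho u q * q ≤
      ((Finset.range (q ^ 2)).filter (fun a : ℕ => (q : ℤ) ∣ u.eval (a : ℤ))).card := by
    unfold rho
    calc ((Finset.range q).filter (fun a : ℕ => (q : ℤ) ∣ u.eval (a : ℤ))).card * q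
        = (((Finset.range q).filter (fun a : ℕ => (q : ℤ) ∣ u.eval (a : ℤ))) ×ˢ
          Finset.range q).card := by rw [Finset.card_product, Finset.card_range]
      _ ≤ _ := by
        refine Finset.card_le_card_of_injOn (fun x => x.1 + q * x.2) ?_ ?_
        · rintro ⟨b, c⟩ hbc
          rw [Finset.mem_coe, Finset.mem_product, Finset.mem_filter, Finset.mem_range,
            Finset.mem_range] at hbc
          obtain ⟨⟨hb, hb2⟩, hc⟩ := hbc
          rw [Finset.mem_coe, Finset.mem_filter, Finset.mem_range]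
          refine ⟨?_, ?_⟩
          · simp only at hb hc ⊢
            nlinarith
          · have h3 := Polynomial.sub_dvd_eval_sub (((b + q * c : ℕ) : ℤ)) (b : ℤ) u
            have h4 : (q : ℤ) ∣ ((b + q * c : ℕ) : ℤ) - b := ⟨c, by push_cast; ring⟩
            exact (dvd_iff_dvd_of_dvd_sub (h4.trans h3)).2 hb2
        · rintro ⟨b, c⟩ hbc ⟨b', c'⟩ hbc' heq
          rw [Finset.mem_coe, Finset.mem_product, Finset.mem_filter, Finset.mem_range,
            Finset.mem_range] at hbc hbc'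
          simp only at heq hbc hbc'
          have hb : b = b' := by
            have := congrArg (· % q) heq
            simpa [Nat.add_mul_mod_self_left, Nat.mod_eq_of_lt hbc.1.1,
              Nat.mod_eq_of_lt hbc'.1.1] using this
          subst hb
          have hc : q * c = q * c' := by omega
          rw [Nat.eq_of_mul_eq_mul_left hq hc]
  calc (rho u q : ℝ) / q * (q : ℝ) ^ 2 = ((rho u q * q : ℕ) : ℝ) := by
        push_cast
        field_simp
    _ ≤ _ := by exact_mod_cast h2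

/-- the residue classes modulo `r ^ 2` for which `r` divides `g` exactly once -/
theorem cnt_once (g : ℤ[X]) {r : ℕ} (hr : r.Prime)
    (hD : ∀ t : ℤ, (r : ℤ) ∣ g.eval t → ¬ (r : ℤ) ∣ (derivative g).eval t) :
    (rho g r : ℝ) / (2 * r) * (r : ℝ) ^ 2 ≤ ({a : ℕ | a < r ^ 2 ∧ ((r : ℤ) ∣ g.eval (a : ℤ) ∧
      ¬ (r : ℤ) ^ 2 ∣ g.eval (a : ℤ))}.ncard : ℝ) := by
  classical
  have hr0 : (0 : ℝ) < r := by exact_mod_cast hr.pos
  have hrp : Prime (r : ℤ) := Nat.prime_iff_prime_int.1 hr
  have h1 : {a : ℕ | a < r ^ 2 ∧ ((r : ℤ) ∣ g.eval (a : ℤ) ∧ ¬ (r : ℤ) ^ 2 ∣ g.eval (a : ℤ))} =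
      (((Finset.range (r ^ 2)).filter (fun a : ℕ => (r : ℤ) ∣ g.eval (a : ℤ) ∧
        ¬ (r : ℤ) ^ 2 ∣ g.eval (a : ℤ)) : Finset ℕ) : Set ℕ) := by
    ext a
    simp
  rw [h1, Set.ncard_coe_finset]
  have hone : ∀ b : ℕ, (r : ℤ) ∣ g.eval (b : ℤ) →
      ((Finset.range r).filter (fun c : ℕ => (r : ℤ) ^ 2 ∣ g.eval ((b + r * c : ℕ) : ℤ))).card ≤ 1 := by
    intro b hb
    rw [Finset.card_le_one]
    intro c hc c' hc'
    rw [Finset.mem_filter, Finset.mem_range] at hc hc'
    have hexp : ∀ c : ℕ, (r : ℤ) ^ 2 ∣ g.eval ((b + r * c : ℕ) : ℤ) -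
        (g.eval (b : ℤ) + (derivative g).eval (b : ℤ) * (r * c)) := by
      intro c
      obtain ⟨k, hk⟩ := Polynomial.binomExpansion g (b : ℤ) ((r : ℤ) * c)
      push_cast
      rw [hk]
      exact ⟨k * c ^ 2, by ring⟩
    have h2 : (r : ℤ) ^ 2 ∣ (derivative g).eval (b : ℤ) * (r * c) -
        (derivative g).eval (b : ℤ) * (r * c') := by
      have e1 := dvd_sub (dvd_sub hc.2 hc'.2) (dvd_sub (hexp c) (hexp c'))
      have e2 : g.eval ((b + r * c : ℕ) : ℤ) - g.eval ((b + r * c' : ℕ) : ℤ) -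
          (g.eval ((b + r * c : ℕ) : ℤ) -
            (g.eval (b : ℤ) + (derivative g).eval (b : ℤ) * (r * c)) -
          (g.eval ((b + r * c' : ℕ) : ℤ) -
            (g.eval (b : ℤ) + (derivative g).eval (b : ℤ) * (r * c')))) =
          (derivative g).eval (b : ℤ) * (r * c) - (derivative g).eval (b : ℤ) * (r * c') := by ring
      rwa [e2] at e1
    have h3 : (r : ℤ) ∣ (derivative g).eval (b : ℤ) * ((c : ℤ) - c') := by
      have e3 : (derivative g).eval (b : ℤ) * (r * c) - (derivative g).eval (b : ℤ) * (r * c') =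
          r * ((derivative g).eval (b : ℤ) * ((c : ℤ) - c')) := by ring
      rw [e3, pow_two] at h2
      exact (mul_dvd_mul_iff_left hrp.ne_zero).1 h2
    rcases hrp.dvd_or_dvd h3 with h4 | h4
    · exact absurd h4 (hD b hb)
    · have h5 : (c' : ℤ) ≡ c [ZMOD r] := Int.modEq_iff_dvd.2 h4
      have h6 := (Int.natCast_modEq_iff.1 h5)
      exact (Nat.ModEq.eq_of_lt_of_lt h6 hc'.1 hc.1).symm
  have h2 : rho g r * (r - 1) ≤ ((Finset.range (r ^ 2)).filter (fun a : ℕ =>
      (r : ℤ) ∣ g.eval (a : ℤ) ∧ ¬ (r : ℤ) ^ 2 ∣ g.eval (a : ℤ))).card := by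
    unfold rho
    set Z : Finset ℕ := (Finset.range r).filter (fun a : ℕ => (r : ℤ) ∣ g.eval (a : ℤ)) with hZ
    calc Z.card * (r - 1)
        = ∑ b ∈ Z, (r - 1) := by rw [Finset.sum_const, smul_eq_mul]
      _ ≤ ∑ b ∈ Z, ((Finset.range r).filter
          (fun c : ℕ => ¬ (r : ℤ) ^ 2 ∣ g.eval ((b + r * c : ℕ) : ℤ))).card := by
          refine Finset.sum_le_sum fun b hb => ?_
          have h3 := hone b (Finset.mem_filter.1 hb).2
          have h4 := Finset.card_filter_add_card_filter_not (s := Finset.range r)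
            (fun c : ℕ => (r : ℤ) ^ 2 ∣ g.eval ((b + r * c : ℕ) : ℤ))
          rw [Finset.card_range] at h4
          omega
      _ = (Z.sigma fun b => (Finset.range r).filter
          (fun c : ℕ => ¬ (r : ℤ) ^ 2 ∣ g.eval ((b + r * c : ℕ) : ℤ))).card := by
          rw [Finset.card_sigma]
      _ ≤ _ := by
        refine Finset.card_le_card_of_injOn (fun x => x.1 + r * x.2) ?_ ?_
        · rintro ⟨b, c⟩ hbc
          rw [Finset.mem_coe, Finset.mem_sigma, Finset.mem_filter, Finset.mem_filter,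
            Finset.mem_range, Finset.mem_range] at hbc
          obtain ⟨⟨hb, hb2⟩, hc, hc2⟩ := hbc
          rw [Finset.mem_coe, Finset.mem_filter, Finset.mem_range]
          refine ⟨?_, ?_, hc2⟩
          · simp only at hb hc ⊢
            nlinarith
          · have h3 := Polynomial.sub_dvd_eval_sub (((b + r * c : ℕ) : ℤ)) (b : ℤ) g
            have h4 : (r : ℤ) ∣ ((b + r * c : ℕ) : ℤ) - b := ⟨c, by push_cast; ring⟩
            exact (dvd_iff_dvd_of_dvd_sub (h4.trans h3)).2 hb2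
        · rintro ⟨b, c⟩ hbc ⟨b', c'⟩ hbc' heq
          rw [Finset.mem_coe, Finset.mem_sigma, Finset.mem_filter, Finset.mem_filter,
            Finset.mem_range, Finset.mem_range] at hbc hbc'
          simp only at heq hbc hbc'
          have hb : b = b' := by
            have := congrArg (· % r) heq
            simpa [Nat.add_mul_mod_self_left, Nat.mod_eq_of_lt hbc.1.1,
              Nat.mod_eq_of_lt hbc'.1.1] using this
          subst hb
          have hc : r * c = r * c' := by omega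
          rw [Nat.eq_of_mul_eq_mul_left hr.pos hc]
  have h3 : (rho g r : ℝ) / (2 * r) * (r : ℝ) ^ 2 ≤ ((rho g r * (r - 1) : ℕ) : ℝ) := by
    have h4 : (2 : ℝ) ≤ r := by exact_mod_cast hr.two_le
    have h5 : (0 : ℝ) ≤ rho g r := by positivity
    rw [Nat.cast_mul, Nat.cast_sub hr.one_lt.le, Nat.cast_one]
    have h6 : (rho g r : ℝ) / (2 * r) * (r : ℝ) ^ 2 = rho g r * (r / 2) := by
      field_simp
    rw [h6]
    exact mul_le_mul_of_nonneg_left (by linarith) h5
  refine h3.trans ?_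
  exact_mod_cast h2

end Pool.Agent.N92.PO
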