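import Pool.Agent.N92.PO.Cnt
import Pool.Agent.N92.SD.Lift

/-! # Polynomial orders of difference sets -/

set_option autoImplicit false
set_option linter.unusedSectionVars false

namespace Pool.Agent.N92.PO

open Finset Filter Polynomial Pool.Agent.Y722.HS Pool.Agent.N666.TM Pool.Agent.Y722.LS
open Pool.Agent.N92.TC Pool.Agent.N680.TH Pool.Agent.N92.SD
open Pool.Agent.H771R2.SingerDS (HasSinger)
open Pool.Agent.R116.AF (ExO Liftable exO_lift)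
open Pool.Agent.H474R2.PG (rho Sg PR mertens_lower rho_le)
open scoped NumberTheorySymbols

/-- the sets `(N, 2N]` -/
def SS : ℕ → Finset ℕ := fun N => Ioc N (2 * N)

theorem well_id : ∀ H : ℕ, ∃ N₀ : ℕ, ∀ N : ℕ, N₀ ≤ N → Well (SS N) (fun t (_ : Unit) => (t : ℤ)) H :=
  Eqd.well (S := SS) (a := fun t => (t : ℤ)) eqd_id

/-- almost all `t` have good primes `q` and `r` -/
theorem poly_null {g h u : ℤ[X]} (hg : Irreducible g) (hgd : 0 < g.natDegree) (hgh : ¬ g ∣ h)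
    (hu : Irreducible u) (hud : 0 < u.natDegree) (T₀ : Set ℕ) (hT₀ : T₀.Finite) :
    NullIn SS {t | ¬ ∃ q : ℕ, q.Prime ∧ q ∉ T₀ ∧ q ≠ 2 ∧ (q : ℤ) ∣ u.eval (t : ℤ) ∧
      ∃ r : ℕ, r.Prime ∧ J((r : ℤ) | q) = -1 ∧ (r : ℤ) ∣ g.eval (t : ℤ) ∧
        ¬ (r : ℤ) ^ 2 ∣ g.eval (t : ℤ) ∧ ¬ (r : ℤ) ∣ h.eval (t : ℤ)} := by
  classical
  obtain ⟨D₁, hD₁, hD₁'⟩ := bez hg hgd hgh
  obtain ⟨D₂, hD₂, hD₂'⟩ := bez hg hgd (not_dvd_der hgd)
  set Bad : Set ℕ := {q : ℕ | q.Prime ∧ q ≠ 2 ∧ Summable (fun n : ℕ =>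
      {r : ℕ | r.Prime ∧ J((r : ℤ) | q) = -1}.indicator (fun p => (rho g p : ℝ) / p) n)} with hBad
  have hBf : Bad.Finite := finite_bad g hg hgd
  set Ps : Set ℕ := {p : ℕ | p.Prime} \ (T₀ ∪ {2} ∪ Bad) with hPs
  have hRf : (Set.Iic (D₁.natAbs + D₂.natAbs) : Set ℕ).Finite := Set.finite_Iic _
  set R : ℕ → Set ℕ := fun q => {r : ℕ | r.Prime ∧ J((r : ℤ) | q) = -1} \
    Set.Iic (D₁.natAbs + D₂.natAbs) with hR
  have hRD : ∀ q, ∀ r ∈ R q, r.Prime ∧ (∀ t : ℤ, (r : ℤ) ∣ g.eval t → ¬ (r : ℤ) ∣ h.eval t) ∧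
      (∀ t : ℤ, (r : ℤ) ∣ g.eval t → ¬ (r : ℤ) ∣ (derivative g).eval t) := by
    rintro q r ⟨⟨hr, -⟩, hrD⟩
    rw [Set.mem_Iic, not_le] at hrD
    refine ⟨hr, fun t h1 h2 => ?_, fun t h1 h2 => ?_⟩
    · have h3 := Int.natCast_dvd.1 (hD₁' _ t h1 h2)
      have h4 := Nat.le_of_dvd (Int.natAbs_pos.2 hD₁) h3
      omega
    · have h3 := Int.natCast_dvd.1 (hD₂' _ t h1 h2)
      have h4 := Nat.le_of_dvd (Int.natAbs_pos.2 hD₂) h3
      omega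
  refine null_mono ?_ (two_pred well_id Ps (fun q hq => hq.1) (fun q t => (q : ℤ) ∣ u.eval t)
    ?_ (fun q => (rho u q : ℝ) / q) (fun q => by positivity)
    (fun q hq => cnt_dvd u hq.1.pos) ?_
    (fun q => {t | ¬ ∃ r ∈ R q, (r : ℤ) ∣ g.eval (t : ℤ) ∧ ¬ (r : ℤ) ^ 2 ∣ g.eval (t : ℤ)}) ?_)
  · rintro t ht ⟨q, hq, hqu, hqr⟩
    apply ht
    have hqr' : ∃ r ∈ R q, (r : ℤ) ∣ g.eval (t : ℤ) ∧ ¬ (r : ℤ) ^ 2 ∣ g.eval (t : ℤ) :=
      not_not.1 hqr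
    obtain ⟨r, hr, h1, h2⟩ := hqr'
    have hq2 := hq.2
    rw [Set.mem_union, Set.mem_union, not_or, not_or, Set.mem_singleton_iff] at hq2
    exact ⟨q, hq.1, hq2.1.1, hq2.1.2, hqu, r, hr.1.1, hr.1.2, h1, h2, (hRD q r hr).2.1 _ h1⟩
  · intro q hq t t' htt'
    have h3 := Polynomial.sub_dvd_eval_sub t t' u
    exact dvd_iff_dvd_of_dvd_sub (((dvd_pow_self (q : ℤ) two_ne_zero).trans htt').trans h3)
  · exact div_diff _ ((hT₀.union (Set.finite_singleton 2)).union hBf) (div_rho u hu hud)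
  · intro q hq
    have hq2 := hq.2
    rw [Set.mem_union, Set.mem_union, not_or, not_or, Set.mem_singleton_iff] at hq2
    have hqB : ¬ Summable (fun n : ℕ =>
        {r : ℕ | r.Prime ∧ J((r : ℤ) | q) = -1}.indicator (fun p => (rho g p : ℝ) / p) n) :=
      fun hs => hq2.2 ⟨hq.1, hq2.1.2, hs⟩
    have hdiv : ¬ Summable (fun n : ℕ => (R q).indicator (fun p => (rho g p : ℝ) / (2 * p)) n) := by
      intro hs
      apply div_diff _ hRf hqB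
      refine (hs.mul_left 2).congr fun n => ?_
      by_cases hn : n ∈ R q
      · rw [Set.indicator_of_mem hn, Set.indicator_of_mem hn]
        field_simp
      · rw [Set.indicator_of_notMem hn, Set.indicator_of_notMem hn, mul_zero]
    exact null_pred well_id (R q) (fun r hr => (hRD q r hr).1)
      (fun r t => (r : ℤ) ∣ g.eval t ∧ ¬ (r : ℤ) ^ 2 ∣ g.eval t)
      (fun r hr t t' htt' => by
        have h3 := Polynomial.sub_dvd_eval_sub t t' g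
        have e1 : (r : ℤ) ∣ g.eval t ↔ (r : ℤ) ∣ g.eval t' :=
          dvd_iff_dvd_of_dvd_sub (((dvd_pow_self (r : ℤ) two_ne_zero).trans htt').trans h3)
        have e2 : (r : ℤ) ^ 2 ∣ g.eval t ↔ (r : ℤ) ^ 2 ∣ g.eval t' :=
          dvd_iff_dvd_of_dvd_sub (htt'.trans h3)
        rw [e1, e2])
      (fun r => (rho g r : ℝ) / (2 * r)) (fun r => by positivity)
      (fun r hr => cnt_once g (hRD q r hr).1 (hRD q r hr).2.2) hdiv

/-- `f` has an irreducible factor of positive degree with an odd exponent -/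
def Adm (f : ℤ[X]) : Prop :=
  ∃ (g h : ℤ[X]) (e : ℕ), Irreducible g ∧ 0 < g.natDegree ∧ Odd e ∧ ¬ g ∣ h ∧ f = g ^ e * h

theorem Adm.degree_pos {f : ℤ[X]} (hf : Adm f) : 0 < f.natDegree := by
  obtain ⟨g, h, e, hg, hgd, he, hgh, rfl⟩ := hf
  have h0 : h ≠ 0 := fun h0 => hgh (h0 ▸ dvd_zero g)
  rw [natDegree_mul (pow_ne_zero _ hg.ne_zero) h0, natDegree_pow]
  have := Nat.mul_pos he.pos hgd
  omega

/-- the exact power of `r` -/
theorem exact_pow {g h : ℤ[X]} {e i r n : ℕ} {t : ℤ} (hr : r.Prime)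
    (hn : (n : ℤ) = (g ^ e * h).eval t) (h1 : (r : ℤ) ∣ g.eval t)
    (h2 : ¬ (r : ℤ) ^ 2 ∣ g.eval t) (h3 : ¬ (r : ℤ) ∣ h.eval t) :
    ∃ v : ℕ, n ^ i = r ^ (e * i) * v ∧ ¬ r ∣ v := by
  have hrp : Prime (r : ℤ) := Nat.prime_iff_prime_int.1 hr
  obtain ⟨s, hs⟩ := h1
  have hrs : ¬ (r : ℤ) ∣ s := by
    rintro ⟨s', hs'⟩
    exact h2 ⟨s', by rw [hs, hs']; ring⟩
  have e1 : ((n ^ i : ℕ) : ℤ) = (r : ℤ) ^ (e * i) * (s ^ e * h.eval t) ^ i := by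
    push_cast
    rw [hn, eval_mul, eval_pow, hs]
    ring
  have h4 : r ^ (e * i) ∣ n ^ i := by
    have : ((r ^ (e * i) : ℕ) : ℤ) ∣ ((n ^ i : ℕ) : ℤ) := by
      rw [e1]
      push_cast
      exact Dvd.intro _ rfl
    exact_mod_cast this
  obtain ⟨v, hv⟩ := h4
  refine ⟨v, hv, fun hrv => ?_⟩
  have h5 : (v : ℤ) = (s ^ e * h.eval t) ^ i := by
    rw [hv] at e1
    push_cast at e1
    exact mul_left_cancel₀ (pow_ne_zero _ hrp.ne_zero) e1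
  have h6 : (r : ℤ) ∣ (s ^ e * h.eval t) ^ i := by
    rw [← h5]
    exact_mod_cast hrv
  rcases hrp.dvd_or_dvd (hrp.dvd_of_dvd_pow h6) with h7 | h7
  · exact hrs (hrp.dvd_of_dvd_pow h7)
  · exact h3 h7

theorem jac_pow {q r : ℕ} (hq : q.Prime) (h : J((r : ℤ) | q) = -1) :
    (r : ZMod q) ^ (q / 2) = -1 := by
  have : Fact q.Prime := ⟨hq⟩
  rw [← jacobiSym.legendreSym.to_jacobiSym] at h
  have h1 := legendreSym.eq_pow q (r : ℤ)
  rw [h] at h1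
  push_cast at h1
  exact h1.symm

/-- odd dimension -/
theorem odd_null {f : ℤ[X]} (hf : Adm f) {i l : ℕ} (hi : Odd i) (hl : l.Prime) :
    NullIn SS {t : ℕ | ∃ n : ℕ, (n : ℤ) = f.eval (t : ℤ) ∧ 2 ≤ n ∧
      ∃ m, Odd m ∧ 3 ≤ m ∧ l ∣ m ∧ HasSinger (n ^ i) m} := by
  classical
  have hfd := hf.degree_pos
  obtain ⟨g, h, e, hg, hgd, he, hgh, hfe⟩ := hf
  have hi0 := hi.pos
  have hL : 0 < i * l := Nat.mul_pos hi0 hl.pos
  have hcd : 0 < ((cyclotomic (i * l) ℤ).comp f).natDegree := by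
    rw [natDegree_comp, natDegree_cyclotomic]
    exact Nat.mul_pos (Nat.totient_pos.2 hL) hfd
  obtain ⟨u, hu, hud, huF⟩ := exists_factor hcd
  refine null_mono ?_ (poly_null hg hgd hgh hu hud (Set.Iic (i * l)) (Set.finite_Iic _))
  rintro t ⟨n, hn, hn2, m, hm, hm3, hlm, hS⟩ ⟨q, hq, hqT, hq2, hqu, r, hr, hrq, h1, h2, h3⟩
  have hF : Fact q.Prime := ⟨hq⟩
  rw [hfe] at hn
  obtain ⟨v, hv, hrv⟩ := exact_pow (i := i) hr hn h1 h2 h3
  rw [Set.mem_Iic, not_le] at hqT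
  -- `n` has order `i l` modulo `q`
  have hne : NeZero ((i * l : ℕ) : ZMod q) := ⟨by
    intro h0
    rw [ZMod.natCast_eq_zero_iff] at h0
    have := Nat.le_of_dvd hL h0
    omega⟩
  have hroot : IsPrimitiveRoot (n : ZMod q) (i * l) := by
    rw [← isRoot_cyclotomic_iff, IsRoot.def]
    obtain ⟨w, hw⟩ := huF
    have h4 : (q : ℤ) ∣ (cyclotomic (i * l) ℤ).eval (f.eval (t : ℤ)) := by
      rw [← eval_comp, hw, eval_mul]
      exact hqu.mul_right _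
    rw [hfe, ← hn, ← ZMod.intCast_zmod_eq_zero_iff_dvd] at h4
    have h5 : (cyclotomic (i * l) (ZMod q)).eval (n : ZMod q) =
        (((cyclotomic (i * l) ℤ).eval (n : ℤ) : ℤ) : ZMod q) := by
      rw [← map_cyclotomic_int (i * l) (ZMod q)]
      have := eval_intCast_map (Int.castRingHom (ZMod q)) (cyclotomic (i * l) ℤ) (n : ℤ)
      simpa using this
    rw [h5]
    exact h4
  refine excluded' (n := n ^ i) (m := m) (w := q) (r := r) (j := q / 2) (c := e * i) (n' := v)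
    hm hm3 (hn2.trans (Nat.le_self_pow hi0.ne' n)) hS hq ?_ ?_ hr (he.mul hi) hv hrv
    (jac_pow hq hrq)
  · push_cast
    rw [← pow_mul, hroot.pow_eq_one_iff_dvd]
    exact Nat.mul_dvd_mul_left i hlm
  · push_cast
    rw [Ne, hroot.pow_eq_one_iff_dvd]
    intro h4
    have h5 := Nat.le_of_dvd hi0 h4
    have h6 := hl.two_le
    nlinarith

/-- even dimension -/
theorem even_null {P : ℕ → Prop} (hX : ExO P) {f : ℤ[X]} (hf : Adm f) {i : ℕ} (hi : Odd i) :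
    NullIn SS {t : ℕ | ∃ n : ℕ, (n : ℤ) = f.eval (t : ℤ) ∧ 2 ≤ n ∧ P (n ^ i)} := by
  classical
  have hfd := hf.degree_pos
  obtain ⟨g, h, e, hg, hgd, he, hgh, hfe⟩ := hf
  have hi0 := hi.pos
  have hcd : 0 < (f - C 1).natDegree := by
    rw [natDegree_sub_C]
    exact hfd
  obtain ⟨u, hu, hud, huF⟩ := exists_factor hcd
  refine null_mono ?_ (poly_null hg hgd hgh hu hud ∅ Set.finite_empty)
  rintro t ⟨n, hn, hn2, hP⟩ ⟨q, hq, -, hq2, hqu, r, hr, hrq, h1, h2, h3⟩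
  rw [hfe] at hn
  obtain ⟨v, hv, hrv⟩ := exact_pow (i := i) hr hn h1 h2 h3
  have h4 : (q : ℤ) ∣ (n : ℤ) - 1 := by
    obtain ⟨w, hw⟩ := huF
    have h5 : (n : ℤ) - 1 = (f - C 1).eval (t : ℤ) := by
      rw [eval_sub, eval_C, hfe, ← hn]
    rw [h5, hw, eval_mul]
    exact hqu.mul_right _
  have h5 : q ∣ n ^ i - 1 := by
    have h6 : (n : ZMod q) = 1 := by
      rw [← ZMod.intCast_zmod_eq_zero_iff_dvd] at h4
      push_cast at h4
      exact sub_eq_zero.1 h4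
    rw [← ZMod.natCast_eq_zero_iff, Nat.cast_sub (Nat.one_le_pow _ _ (by omega))]
    push_cast
    rw [h6, one_pow, sub_self]
  refine hX (n ^ i) (hn2.trans (Nat.le_self_pow hi0.ne' n)) hP q r (q / 2) (e * i) v
    hq ?_ h5 hr (jac_pow hq hrq) (he.mul hi) hrv hv
  have := hq.two_le
  omega

theorem poly_main : ∃ E : Set ℕ, NullIn SS E ∧ ∀ f : ℤ[X], Adm f →
    (∀ K i : ℕ, Odd i → {t : ℕ | t ∉ E ∧ ∃ n : ℕ, (n : ℤ) = f.eval (t : ℤ) ∧ 2 ≤ n ∧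
      ∃ m, Odd m ∧ 3 ≤ m ∧ m.minFac ≤ K ∧ HasSinger (n ^ i) m}.Finite) ∧
    ∀ i : ℕ, Odd i → {t : ℕ | t ∉ E ∧ ∃ n : ℕ, (n : ℤ) = f.eval (t : ℤ) ∧ 2 ≤ n ∧
      ∃ m, Even m ∧ 4 ≤ m ∧ Liftable (n ^ i) m}.Finite := by
  classical
  have h0 : Countable ℤ[X] := by
    rw [← Cardinal.mk_le_aleph0_iff]
    refine Polynomial.cardinalMk_le_max.trans ?_
    rw [max_le_iff]
    exact ⟨Cardinal.mk_le_aleph0, le_rfl⟩
  have hc : Countable ({f : ℤ[X] // Adm f} × {i : ℕ // Odd i} × {l : ℕ // l.Prime}) :=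
    inferInstance
  set B₁ : {f : ℤ[X] // Adm f} × {i : ℕ // Odd i} × {l : ℕ // l.Prime} → Set ℕ := fun x =>
    {t : ℕ | ∃ n : ℕ, (n : ℤ) = x.1.1.eval (t : ℤ) ∧ 2 ≤ n ∧
      ∃ m, Odd m ∧ 3 ≤ m ∧ x.2.2.1 ∣ m ∧ HasSinger (n ^ x.2.1.1) m} with hB₁
  set B₂ : {f : ℤ[X] // Adm f} × {i : ℕ // Odd i} × {l : ℕ // l.Prime} → Set ℕ := fun x =>
    {t : ℕ | ∃ n : ℕ, (n : ℤ) = x.1.1.eval (t : ℤ) ∧ 2 ≤ n ∧
      ∃ m, Even m ∧ 4 ≤ m ∧ Liftable (n ^ x.2.1.1) m} with hB₂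
  have hn₁ : ∀ x, NullIn SS (B₁ x) := fun x => odd_null x.1.2 x.2.1.2 x.2.2.2
  have hn₂ : ∀ x, NullIn SS (B₂ x) := fun x => even_null exO_lift x.1.2 x.2.1.2
  obtain ⟨E, h1, -, h3⟩ := one_countable (S₁ := SS) (S₂ := SS) (fun N => subset_rfl)
    (fun N => subset_rfl)
    (fun x : Bool × ({f : ℤ[X] // Adm f} × {i : ℕ // Odd i} × {l : ℕ // l.Prime}) =>
      if x.1 then B₁ x.2 else B₂ x.2)
    (fun x => by rcases x with ⟨b, x⟩; cases b; exacts [hn₂ x, hn₁ x])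
    (fun x => by rcases x with ⟨b, x⟩; cases b; exacts [hn₂ x, hn₁ x])
  refine ⟨E, h1, fun f hf => ⟨fun K i hi => ?_, fun i hi => ?_⟩⟩
  · refine ((Finset.range (K + 1)).finite_toSet.biUnion (t := fun l =>
      {t : ℕ | t ∉ E ∧ ∃ hl : l.Prime, t ∈ B₁ (⟨f, hf⟩, ⟨i, hi⟩, ⟨l, hl⟩)}) (fun l _ => ?_)).subset ?_
    · by_cases hl : l.Prime
      · refine (h3 (true, (⟨f, hf⟩, ⟨i, hi⟩, ⟨l, hl⟩))).subset ?_
        rintro t ⟨ht1, _, ht2⟩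
        exact ⟨ht1, ht2⟩
      · refine Set.finite_empty.subset ?_
        rintro t ⟨_, hl', _⟩
        exact hl hl'
    · rintro t ⟨htE, n, hn, hn2, m, hm, hm3, hmK, hS⟩
      rw [Set.mem_iUnion₂]
      refine ⟨m.minFac, ?_, htE, Nat.minFac_prime (by omega), n, hn, hn2, m, hm, hm3,
        Nat.minFac_dvd m, hS⟩
      rw [Finset.mem_coe, Finset.mem_range]
      omega
  · refine (h3 (false, (⟨f, hf⟩, ⟨i, hi⟩, ⟨2, Nat.prime_two⟩))).subset ?_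
    rintro t ⟨ht1, ht2⟩
    exact ⟨ht1, ht2⟩

end Pool.Agent.N92.PO
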