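import Pool.Agent.N92.SD.Leh
import Pool.Agent.H474R2.GE.FA

/-! # Sieve for polynomial values -/

set_option autoImplicit false
set_option linter.unusedSectionVars false

namespace Pool.Agent.N92.PO

open Finset Filter Polynomial Pool.Agent.Y722.HS Pool.Agent.N666.TM Pool.Agent.Y722.LS
open Pool.Agent.N92.TC Pool.Agent.N680.TH Pool.Agent.N92.SD
open Pool.Agent.H474R2.PG (rho Sg PR mertens_lower rho_le)

/-- The sieve for properties of the residue classes modulo `p ^ 2`. -/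
theorem sieve_pred {S : ℕ → Finset ℕ} {x : ℕ → Unit → ℤ}
    (hw : ∀ H : ℕ, ∃ N₀ : ℕ, ∀ N : ℕ, N₀ ≤ N → Well (S N) x H)
    (Ps : Set ℕ) (hPs : ∀ p ∈ Ps, p.Prime) (Q : ℕ → ℤ → Prop)
    (hper : ∀ p ∈ Ps, ∀ t t' : ℤ, ((p : ℤ) ^ 2) ∣ t - t' → (Q p t ↔ Q p t'))
    (w : ℕ → ℝ) (hw0 : ∀ p, 0 ≤ w p)
    (hwQ : ∀ p ∈ Ps, w p * (p : ℝ) ^ 2 ≤ ({a : ℕ | a < p ^ 2 ∧ Q p a}.ncard : ℝ))
    (hdiv : ¬ Summable (fun n : ℕ => Ps.indicator w n)) {ε : ℝ} (hε : 0 < ε) :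
    ∃ y N₀ : ℕ, ∀ N : ℕ, N₀ ≤ N →
      ({n : ℕ | n ∈ S N ∧ ∀ p ∈ Ps, p < y → ¬ Q p (x n ())}.ncard : ℝ) ≤
        ε * (S N).card := by
  classical
  obtain ⟨y, hy⟩ : ∃ y : ℕ, 2 / (ε / 2) ≤ ∑ p ∈ Finset.range y, Ps.indicator w p := by
    have hnn : ∀ p : ℕ, 0 ≤ Ps.indicator w p := by
      intro p
      apply Set.indicator_nonneg
      intro _ _
      exact hw0 _
    have ht := (not_summable_iff_tendsto_nat_atTop_of_nonneg hnn).mp hdiv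
    exact (ht.eventually_ge_atTop _).exists
  set P : Finset ℕ := (Finset.range y).filter (fun p => p ∈ Ps) with hP
  have hPsum : 2 / (ε / 2) ≤ ∑ p ∈ P, w p := by
    rw [hP, Finset.sum_filter]
    refine hy.trans (le_of_eq (Finset.sum_congr rfl fun p _ => ?_))
    by_cases h : p ∈ Ps
    · rw [Set.indicator_of_mem h, if_pos h]
    · rw [Set.indicator_of_notMem h, if_neg h]
  have hPm : ∀ p ∈ P, p < y ∧ p ∈ Ps := by
    intro p hp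
    rw [hP, Finset.mem_filter, Finset.mem_range] at hp
    exact hp
  set H : ℕ := y ^ 4 + ⌈4 / (ε / 2)⌉₊ with hH
  obtain ⟨N₁, hN₁⟩ := hw H
  refine ⟨y, N₁, fun N hN => ?_⟩
  have hws := hN₁ N hN
  set Ω : ∀ p : ℕ, Set (Unit → ZMod (p ^ 2)) := fun p => {ρ | Q p ((ρ ()).val : ℤ)} with hΩ
  have hd : ∀ p ∈ P, w p ≤ Pool.Agent.N666.TM.dens (Ω p) := by
    intro p hp
    have hpp := hPs p (hPm p hp).2
    have hp0 : 0 < p ^ 2 := pow_pos hpp.pos 2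
    have : NeZero (p ^ 2) := ⟨hp0.ne'⟩
    unfold Pool.Agent.N666.TM.dens
    rw [Fintype.card_unit, pow_one, le_div_iff₀ (by exact_mod_cast hp0)]
    have h1 := hwQ p (hPm p hp).2
    push_cast
    refine h1.trans (Nat.cast_le.2 ?_)
    have hfin : (Ω p).Finite := Set.toFinite _
    refine Set.ncard_le_ncard_of_injOn (fun a : ℕ => fun _ : Unit => (a : ZMod (p ^ 2)))
      ?_ ?_ hfin
    · rintro a ⟨ha, hQ⟩
      change Q p (((a : ZMod (p ^ 2))).val : ℤ)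
      rw [ZMod.val_natCast, Nat.mod_eq_of_lt ha]
      exact hQ
    · rintro a ⟨ha, -⟩ b ⟨hb, -⟩ hab
      have h2 : (a : ZMod (p ^ 2)) = (b : ZMod (p ^ 2)) := congrFun hab ()
      rw [ZMod.natCast_eq_natCast_iff'] at h2
      rwa [Nat.mod_eq_of_lt ha, Nat.mod_eq_of_lt hb] at h2
  have hμ : 2 / (ε / 2) ≤ ∑ p ∈ P, Pool.Agent.N666.TM.dens (Ω p) :=
    hPsum.trans (Finset.sum_le_sum hd)
  have hμ0 : 0 < ∑ p ∈ P, Pool.Agent.N666.TM.dens (Ω p) := lt_of_lt_of_le (by positivity) hμ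
  have h1 := turan hws P (fun p => p ^ 2) (fun p hp => pow_pos (hPs p (hPm p hp).2).pos 2)
    (fun p hp p' hp' hne =>
      Nat.Coprime.pow 2 2 ((Nat.coprime_primes (hPs p (hPm p hp).2) (hPs p' (hPm p' hp').2)).mpr hne))
    (fun p hp p' hp' => by
      have a1 : p ^ 2 ≤ y ^ 2 := Nat.pow_le_pow_left (hPm p hp).1.le 2
      have a2 : p' ^ 2 ≤ y ^ 2 := Nat.pow_le_pow_left (hPm p' hp').1.le 2
      calc p ^ 2 * p' ^ 2 ≤ y ^ 2 * y ^ 2 := Nat.mul_le_mul a1 a2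
        _ = y ^ 4 := by ring
        _ ≤ 2 * H + 1 := by omega)
    Ω _ rfl hμ0
  have h2 : 2 / (∑ p ∈ P, Pool.Agent.N666.TM.dens (Ω p)) ≤ ε / 2 := by
    rw [div_le_iff₀ hμ0]
    rw [div_le_iff₀ (by positivity)] at hμ
    linarith
  have h3 : (4 : ℝ) / (2 * H + 1) ≤ ε / 2 := by
    have h4 : 4 / (ε / 2) ≤ (H : ℝ) :=
      (Nat.le_ceil _).trans (by exact_mod_cast (by omega : ⌈4 / (ε / 2)⌉₊ ≤ H))
    rw [div_le_iff₀ (by positivity)] at h4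
    rw [div_le_iff₀ (by positivity)]
    nlinarith
  have hsub : {n : ℕ | n ∈ S N ∧ ∀ p ∈ Ps, p < y → ¬ Q p (x n ())} ⊆
      ↑((S N).filter fun n => ∀ p ∈ P, red (p ^ 2) (x n) ∉ Ω p) := by
    rintro n ⟨hn, hn'⟩
    rw [Finset.mem_coe, Finset.mem_filter]
    refine ⟨hn, fun p hp hcon => hn' p (hPm p hp).2 (hPm p hp).1 ?_⟩
    have hpp := hPs p (hPm p hp).2
    have : NeZero (p ^ 2) := ⟨(pow_pos hpp.pos 2).ne'⟩
    have h5 : Q p (((((x n () : ℤ) : ZMod (p ^ 2))).val : ℕ) : ℤ) := hcon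
    refine (hper p (hPm p hp).2 _ _ ?_).1 h5
    have h6 : ((p ^ 2 : ℕ) : ℤ) ∣ (((((x n () : ℤ) : ZMod (p ^ 2))).val : ℕ) : ℤ) - x n () := by
      rw [← ZMod.intCast_zmod_eq_zero_iff_dvd]
      push_cast
      rw [ZMod.natCast_val, ZMod.cast_id', id, sub_self]
    exact_mod_cast h6
  have h4 : ({n : ℕ | n ∈ S N ∧ ∀ p ∈ Ps, p < y → ¬ Q p (x n ())}.ncard : ℝ) ≤
      (((S N).filter fun n => ∀ p ∈ P, red (p ^ 2) (x n) ∉ Ω p).card : ℝ) := by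
    have := Set.ncard_le_ncard hsub (Finset.finite_toSet _)
    rw [Set.ncard_coe_finset] at this
    exact_mod_cast this
  have h5 : (0 : ℝ) ≤ (S N).card := Nat.cast_nonneg _
  have h6 : (2 / (∑ p ∈ P, Pool.Agent.N666.TM.dens (Ω p)) + 4 / (2 * (H : ℝ) + 1)) * (S N).card ≤
      ε * (S N).card := mul_le_mul_of_nonneg_right (by linarith) h5
  refine h4.trans (le_trans (le_of_eq ?_) (h1.trans h6))
  congr!

/-- almost all `n` have one of the properties -/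
theorem null_pred {S : ℕ → Finset ℕ} {x : ℕ → Unit → ℤ}
    (hw : ∀ H : ℕ, ∃ N₀ : ℕ, ∀ N : ℕ, N₀ ≤ N → Well (S N) x H)
    (Ps : Set ℕ) (hPs : ∀ p ∈ Ps, p.Prime) (Q : ℕ → ℤ → Prop)
    (hper : ∀ p ∈ Ps, ∀ t t' : ℤ, ((p : ℤ) ^ 2) ∣ t - t' → (Q p t ↔ Q p t'))
    (w : ℕ → ℝ) (hw0 : ∀ p, 0 ≤ w p)
    (hwQ : ∀ p ∈ Ps, w p * (p : ℝ) ^ 2 ≤ ({a : ℕ | a < p ^ 2 ∧ Q p a}.ncard : ℝ))
    (hdiv : ¬ Summable (fun n : ℕ => Ps.indicator w n)) :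
    NullIn S {n | ¬ ∃ p ∈ Ps, Q p (x n ())} := by
  intro ε hε
  obtain ⟨y, N₀, h⟩ := sieve_pred hw Ps hPs Q hper w hw0 hwQ hdiv hε
  refine ⟨N₀, fun N hN => le_trans ?_ (h N hN)⟩
  have hfin : {n : ℕ | n ∈ S N ∧ ∀ p ∈ Ps, p < y → ¬ Q p (x n ())}.Finite :=
    (S N).finite_toSet.subset fun t ht => ht.1
  have hsub : {t : ℕ | t ∈ S N ∧ t ∈ {n | ¬ ∃ p ∈ Ps, Q p (x n ())}} ⊆
      {n : ℕ | n ∈ S N ∧ ∀ p ∈ Ps, p < y → ¬ Q p (x n ())} :=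
    fun t ht => ⟨ht.1, fun p hp _ hQ => ht.2 ⟨p, hp, hQ⟩⟩
  exact_mod_cast Set.ncard_le_ncard hsub hfin

/-- the two-step sieve for properties -/
theorem two_pred {S : ℕ → Finset ℕ} {x : ℕ → Unit → ℤ}
    (hw : ∀ H : ℕ, ∃ N₀ : ℕ, ∀ N : ℕ, N₀ ≤ N → Well (S N) x H)
    (Ps : Set ℕ) (hPs : ∀ p ∈ Ps, p.Prime) (Q : ℕ → ℤ → Prop)
    (hper : ∀ p ∈ Ps, ∀ t t' : ℤ, ((p : ℤ) ^ 2) ∣ t - t' → (Q p t ↔ Q p t'))
    (w : ℕ → ℝ) (hw0 : ∀ p, 0 ≤ w p)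
    (hwQ : ∀ p ∈ Ps, w p * (p : ℝ) ^ 2 ≤ ({a : ℕ | a < p ^ 2 ∧ Q p a}.ncard : ℝ))
    (hdiv : ¬ Summable (fun n : ℕ => Ps.indicator w n))
    (T : ℕ → Set ℕ) (hT : ∀ q ∈ Ps, NullIn S (T q)) :
    NullIn S {n | ¬ ∃ q ∈ Ps, Q q (x n ()) ∧ n ∉ T q} := by
  classical
  intro ε hε
  obtain ⟨y, N₁, h1⟩ := sieve_pred hw Ps hPs Q hper w hw0 hwQ hdiv (ε := ε / 2) (by positivity)
  set B : ℕ → Set ℕ := fun q => if q ∈ Ps then T q else ∅ with hB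
  have hBn : ∀ q, NullIn S (B q) := by
    intro q
    by_cases hq : q ∈ Ps
    · have : B q = T q := by rw [hB]; exact if_pos hq
      rw [this]
      exact hT q hq
    · have : B q = ∅ := by rw [hB]; exact if_neg hq
      rw [this]
      exact null_empty
  obtain ⟨N₂, h2⟩ := null_iUnion hBn y (ε / 2) (by positivity)
  refine ⟨max N₁ N₂, fun N hN => ?_⟩
  have a1 := h1 N ((le_max_left _ _).trans hN)
  have a2 := h2 N ((le_max_right _ _).trans hN)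
  have hsub : {n : ℕ | n ∈ S N ∧ n ∈ {n | ¬ ∃ q ∈ Ps, Q q (x n ()) ∧ n ∉ T q}} ⊆
      {n : ℕ | n ∈ S N ∧ ∀ p ∈ Ps, p < y → ¬ Q p (x n ())} ∪
      {n : ℕ | n ∈ S N ∧ n ∈ {t | ∃ i ≤ y, t ∈ B i}} := by
    rintro n ⟨hn, hno⟩
    by_cases hex : ∀ p ∈ Ps, p < y → ¬ Q p (x n ())
    · exact Or.inl ⟨hn, hex⟩
    · push Not at hex
      obtain ⟨q, hq, hqy, hqc⟩ := hex
      refine Or.inr ⟨hn, q, hqy.le, ?_⟩
      have : B q = T q := by rw [hB]; exact if_pos hq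
      rw [this]
      by_contra hr
      exact hno ⟨q, hq, hqc, hr⟩
  have hf1 : {n : ℕ | n ∈ S N ∧ ∀ p ∈ Ps, p < y → ¬ Q p (x n ())}.Finite :=
    (S N).finite_toSet.subset fun t ht => ht.1
  have hf2 : {n : ℕ | n ∈ S N ∧ n ∈ {t | ∃ i ≤ y, t ∈ B i}}.Finite :=
    (S N).finite_toSet.subset fun t ht => ht.1
  have h3 := (Set.ncard_le_ncard hsub (hf1.union hf2)).trans (Set.ncard_union_le _ _)
  have h4 : ({n : ℕ | n ∈ S N ∧ n ∈ {n | ¬ ∃ q ∈ Ps, Q q (x n ()) ∧ n ∉ T q}}.ncard : ℝ) ≤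
      ({n : ℕ | n ∈ S N ∧ ∀ p ∈ Ps, p < y → ¬ Q p (x n ())}.ncard : ℝ) +
      ({n : ℕ | n ∈ S N ∧ n ∈ {t | ∃ i ≤ y, t ∈ B i}}.ncard : ℝ) := by exact_mod_cast h3
  linarith

/-- all integers are well distributed -/
theorem eqd_id : Eqd (fun N => Ioc N (2 * N)) (fun t => (t : ℤ)) := by
  intro q hq ρ
  have hq0 : (0 : ℝ) < q := by exact_mod_cast hq
  have key : ∀ N : ℕ, 1 ≤ N →
      |({t : ℕ | t ∈ Ioc N (2 * N) ∧ (q : ℤ) ∣ (t : ℤ) - ρ}.ncard : ℝ) / (Ioc N (2 * N)).card -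
        1 / (q : ℝ)| ≤ 2 / N := by
    intro N hN
    have hN0 : (0 : ℝ) < N := by exact_mod_cast hN
    have hcard : (Ioc N (2 * N)).card = N := by rw [Nat.card_Ioc]; omega
    have h1 : ({t : ℕ | t ∈ Ioc N (2 * N) ∧ (q : ℤ) ∣ (t : ℤ) - ρ}.ncard : ℝ) =
        (((Ioc (N : ℤ) (2 * N)).filter (fun t : ℤ => t ≡ ρ [ZMOD q])).card : ℝ) := by
      rw [← Set.ncard_coe_finset]
      congr 1
      refine Set.ncard_congr (fun t _ => (t : ℤ)) ?_ ?_ ?_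
      · rintro t ⟨ht, hd⟩
        rw [Finset.mem_coe, Finset.mem_filter, Finset.mem_Ioc]
        rw [Finset.mem_Ioc] at ht
        refine ⟨by omega, ?_⟩
        exact (Int.modEq_iff_dvd.2 hd).symm
      · intro a b _ _ hab
        exact_mod_cast hab
      · intro t ht
        rw [Finset.mem_coe, Finset.mem_filter, Finset.mem_Ioc] at ht
        refine ⟨t.toNat, ⟨?_, ?_⟩, ?_⟩
        · rw [Finset.mem_Ioc]
          omega
        · have e : ((t.toNat : ℕ) : ℤ) = t := Int.toNat_of_nonneg (by omega)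
          rw [e]
          exact Int.modEq_iff_dvd.1 ht.2.symm
        · exact Int.toNat_of_nonneg (by omega)
    have h2 := Int.Ioc_filter_modEq_card (N : ℤ) (2 * N) (r := (q : ℤ)) (by omega) ρ
    rw [h1, hcard]
    have h3 : (((Ioc (N : ℤ) (2 * N)).filter (fun t : ℤ => t ≡ ρ [ZMOD q])).card : ℤ) =
        max (⌊(((2 * N : ℤ) - ρ : ℤ) : ℚ) / ((q : ℤ) : ℚ)⌋ - ⌊(((N : ℤ) - ρ : ℤ) : ℚ) / ((q : ℤ) : ℚ)⌋) 0 := by
      rw [h2]
      push_cast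
      rfl
    set A : ℚ := (((2 * N : ℤ) - ρ : ℤ) : ℚ) / ((q : ℤ) : ℚ) with hA
    set B : ℚ := (((N : ℤ) - ρ : ℤ) : ℚ) / ((q : ℤ) : ℚ) with hB
    have hq0' : (0 : ℚ) < q := by exact_mod_cast hq
    have hAB : A - B = (N : ℚ) / q := by
      rw [hA, hB]
      push_cast
      field_simp
      ring
    have hAB0 : 0 ≤ ⌊A⌋ - ⌊B⌋ := by
      have : B ≤ A := by
        have : 0 ≤ A - B := by rw [hAB]; positivity
        linarith
      have := Int.floor_le_floor this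
      omega
    rw [max_eq_left hAB0] at h3
    have f1 := Int.floor_le A
    have f2 := Int.lt_floor_add_one A
    have f3 := Int.floor_le B
    have f4 := Int.lt_floor_add_one B
    have h4 : |((((Ioc (N : ℤ) (2 * N)).filter (fun t : ℤ => t ≡ ρ [ZMOD q])).card : ℤ) : ℚ) -
        (N : ℚ) / q| ≤ 1 := by
      rw [h3]
      push_cast
      rw [abs_le]
      constructor <;> linarith
    have h5 : |((((Ioc (N : ℤ) (2 * N)).filter (fun t : ℤ => t ≡ ρ [ZMOD q])).card : ℕ) : ℝ) -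
        (N : ℝ) / q| ≤ 1 := by
      have h4' := (Rat.cast_le (K := ℝ)).2 h4
      push_cast at h4'
      exact h4'
    have h6 : ((((Ioc (N : ℤ) (2 * N)).filter (fun t : ℤ => t ≡ ρ [ZMOD q])).card : ℕ) : ℝ) / N -
        1 / q = (((((Ioc (N : ℤ) (2 * N)).filter (fun t : ℤ => t ≡ ρ [ZMOD q])).card : ℕ) : ℝ) -
        (N : ℝ) / q) / N := by
      field_simp
    rw [h6, abs_div, abs_of_pos hN0]
    gcongr
    linarith
  rw [tendsto_iff_norm_sub_tendsto_zero]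
  refine squeeze_zero_norm' (a := fun N : ℕ => 2 / (N : ℝ)) ?_
    (tendsto_const_div_atTop_nhds_zero_nat 2)
  filter_upwards [eventually_ge_atTop 1] with N hN
  rw [norm_norm, Real.norm_eq_abs]
  exact key N hN

end Pool.Agent.N92.PO
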